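import Pool.Agent.helper26.IM.SpecA

/-!
# Project im, module TPO: the peel lemma for three variables
-/

set_option autoImplicit false

open Finset

namespace Pool.Agent.helper26.IM

open Pool.Agent.RRank Pool.Agent.helper35.MR

/-- the trilinear form at scaled unit vectors -/
theorem TPO_ev3 {ι K : Type} [Fintype ι] [DecidableEq ι] [Field K] (M : ι → ι → ι → K) (s : ι → K)
    (i j k : ι) :
    ev3 M (s i • (Pi.single i 1 : ι → K)) (Pi.single j 1) (Pi.single k 1) = s i * M i j k := by
  unfold ev3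
  rw [Finset.sum_eq_single i, Finset.sum_eq_single j, Finset.sum_eq_single k]
  · simp [mul_comm]
  · intro b _ hb
    simp [Pi.single_apply, hb]
  · simp
  · intro b _ hb
    simp [Pi.single_apply, hb]
  · simp
  · intro b _ hb
    simp [Pi.single_apply, hb]
  · simp

/-- fullness does not change if the rows of the first direction are multiplied by nonzero scalars -/
theorem TPO_scale (hCHB : CHB_stmt) {ι K : Type} [Fintype ι] [DecidableEq ι] [Field K]
    (M : ι → ι → ι → K) (s : ι → K) (hs : ∀ i, s i ≠ 0) (h : Full3 (fun i j k => s i * M i j k)) :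
    Full3 M := by
  have h1 : LinearIndependent K (fun i : ι => (Pi.single i 1 : ι → K)) := by
    have := (Pi.basisFun K ι).linearIndependent
    convert this using 1
    funext i
    rw [Pi.basisFun_apply]
  have h2 : LinearIndependent K (fun i : ι => s i • (Pi.single i 1 : ι → K)) :=
    h1.units_smul (fun i => Units.mk0 (s i) (hs i))
  refine hCHB K ι M (fun i => s i • (Pi.single i 1 : ι → K)) (fun j => Pi.single j 1)
    (fun k => Pi.single k 1) h2 h1 h1 ?_
  have h3 : (fun i j k => ev3 M (s i • (Pi.single i 1 : ι → K)) (Pi.single j 1) (Pi.single k 1)) =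
      fun i j k => s i * M i j k := by
    funext i j k
    exact TPO_ev3 M s i j k
  rw [h3]
  exact h

/-- module TPO -/
theorem TPO (hBPO : BPO_stmt) (hNFG : NFG_stmt) (hFLX : FLX_stmt) (hNFV : NFV_stmt)
    (hLOS : LOS_stmt) (hNFC : NFC_stmt) (hCHB : CHB_stmt) : TPO_stmt := by
  intro l hS K _ _ X Y Z T hT hF Ω 𝓅 O ξ η ζ hX hY hZ
  classical
  by_contra hτ
  obtain ⟨G, hG⟩ := hS
  obtain ⟨x, y, z, hfull⟩ := hG K X Y Z T (hT G)
  have h12 : ∀ c : Z, UF.mk 𝓅 (fun ω => T (ξ ω) (η ω) c) ∈ O :=
    hBPO l ⟨G, hG⟩ K X Y Z T hT hF Ω 𝓅 O ξ η hX hY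
  have h13 : ∀ b : Y, UF.mk 𝓅 (fun ω => T (ξ ω) b (ζ ω)) ∈ O :=
    hBPO l ⟨G, hG⟩ K X Z Y (fun x z y => T x y z) (fun r h => hT r h.swap23)
      (fun h => hF h.swap12.swap13.swap12) Ω 𝓅 O ξ ζ hX hZ
  have h23 : ∀ a : X, UF.mk 𝓅 (fun ω => T a (η ω) (ζ ω)) ∈ O :=
    hBPO l ⟨G, hG⟩ K Y Z X (fun y z x => T x y z) (fun r h => hT r h.swap12.swap13)
      (fun h => hF h.swap12.swap13) Ω 𝓅 O η ζ hY hZ
  have hconst : ∀ c : K, UF.const 𝓅 K c ∈ O := fun c => hX (fun _ => c)
  -- the minor
  let X' : Ω → Option (Fin l) → X := fun ω i => i.elim (ξ ω) x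
  let Y' : Ω → Option (Fin l) → Y := fun ω i => i.elim (η ω) y
  let Z' : Ω → Option (Fin l) → Z := fun ω i => i.elim (ζ ω) z
  let M : Option (Fin l) → Option (Fin l) → Option (Fin l) → UF 𝓅 (fun _ : Ω => K) :=
    fun i j k => UF.mk 𝓅 (fun ω => T (X' ω i) (Y' ω j) (Z' ω k))
  set τ : UF 𝓅 (fun _ : Ω => K) := UF.mk 𝓅 (fun ω => T (ξ ω) (η ω) (ζ ω)) with hτdef
  have hτ0 : τ ≠ 0 := by
    intro h
    apply hτ
    rw [h]
    exact O.zero_mem
  have hinv : τ⁻¹ ∈ O := (O.mem_or_inv_mem τ).resolve_left hτ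
  let s : Option (Fin l) → UF 𝓅 (fun _ : Ω => K) := fun i => i.elim τ⁻¹ (fun _ => 1)
  have hs : ∀ i, s i ≠ 0 := by
    intro i
    cases i with
    | none => exact inv_ne_zero hτ0
    | some a => exact one_ne_zero
  have hsO : ∀ i, s i ∈ O := by
    intro i
    cases i with
    | none => exact hinv
    | some a => exact O.one_mem
  have hM : ∀ i j k, (i, j, k) ≠ ((none, none, none) :
      Option (Fin l) × Option (Fin l) × Option (Fin l)) → M i j k ∈ O := by
    intro i j k h
    cases i with
    | none =>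
      cases j with
      | none =>
        cases k with
        | none => exact absurd rfl h
        | some c => exact h12 (z c)
      | some b =>
        cases k with
        | none => exact h13 (y b)
        | some c => exact hX (fun u => T u (y b) (z c))
    | some a =>
      cases j with
      | none =>
        cases k with
        | none => exact h23 (x a)
        | some c => exact hY (fun u => T (x a) u (z c))
      | some b =>
        cases k with
        | none => exact hZ (fun u => T (x a) (y b) u)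
        | some c => exact hX (fun _ => T (x a) (y b) (z c))
  have hN : ∀ i j k, s i * M i j k ∈ O := by
    intro i j k
    by_cases h : (i, j, k) = ((none, none, none) :
      Option (Fin l) × Option (Fin l) × Option (Fin l))
    · obtain ⟨rfl, h2⟩ := Prod.mk.inj h
      obtain ⟨rfl, rfl⟩ := Prod.mk.inj h2
      have h3 : s none * M none none none = 1 := inv_mul_cancel₀ hτ0
      rw [h3]
      exact O.one_mem
    · exact O.mul_mem _ _ (hsO i) (hM i j k h)
  let N : Option (Fin l) → Option (Fin l) → Option (Fin l) → O :=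
    fun i j k => ⟨s i * M i j k, hN i j k⟩
  let ρ : O →+* IsLocalRing.ResidueField O := IsLocalRing.residue O
  let φ : K →+* IsLocalRing.ResidueField O :=
    ρ.comp ((UF.const 𝓅 K).codRestrict O hconst)
  have hτm : ρ ⟨τ⁻¹, hinv⟩ = 0 := by
    show IsLocalRing.residue O _ = 0
    rw [IsLocalRing.residue_eq_zero_iff, IsLocalRing.mem_maximalIdeal]
    intro hu
    obtain ⟨u, hu⟩ := hu
    apply hτ
    have h1 : (((u⁻¹ : Oˣ) : O) : UF 𝓅 (fun _ : Ω => K)) * τ⁻¹ = 1 := by
      have h2 : ((u⁻¹ : Oˣ) : O) * (⟨τ⁻¹, hinv⟩ : O) = 1 := by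
        rw [← hu]
        exact Units.inv_mul u
      exact congrArg (Subtype.val) h2
    have h3 : τ = (((u⁻¹ : Oˣ) : O) : UF 𝓅 (fun _ : Ω => K)) := by
      calc τ = ((((u⁻¹ : Oˣ) : O) : UF 𝓅 (fun _ : Ω => K)) * τ⁻¹) * τ := by rw [h1, one_mul]
        _ = _ := by rw [mul_assoc, inv_mul_cancel₀ hτ0, mul_one]
    rw [h3]
    exact SetLike.coe_mem _
  -- the block stays full over the residue field
  have hblock : Full3 (fun i j k => φ (T (x i) (y j) (z k))) := by
    by_contra h
    have h1 := (hNFC _ _ _).2 h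
    have h2 := hNFG K _ φ (Fin l) (fun i j k => T (x i) (y j) (z k)) h1
    exact (hNFC _ _ _).1 h2 hfull
  have hκ : Full3 (fun i j k => ρ (N i j k)) := by
    refine hFLX _ (Fin l) (fun i j k => ρ (N i j k)) ?_ ?_ ?_
    · have h1 : N none none none = 1 := Subtype.ext (inv_mul_cancel₀ hτ0)
      show ρ (N none none none) ≠ 0
      rw [h1, map_one]
      exact one_ne_zero
    · intro j k hjk
      have h1 : N none j k = (⟨τ⁻¹, hinv⟩ : O) * ⟨M none j k, hM none j k (fun h => hjk (by
          exact (Prod.mk.inj h).2))⟩ := rfl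
      show ρ (N none j k) = 0
      rw [h1, map_mul, hτm, zero_mul]
    · have h1 : (fun i j k => ρ (N (some i) (some j) (some k))) =
          fun i j k => φ (T (x i) (y j) (z k)) := by
        funext i j k
        show ρ (N (some i) (some j) (some k)) = ρ _
        congr 1
        exact Subtype.ext (one_mul _)
      rw [h1]
      exact hblock
  have hL : Full3 (fun i j k => s i * M i j k) := by
    by_contra h
    have h1 := (hNFC _ _ _).2 h
    exact (hNFC _ _ _).1 (hNFV _ O _ ρ _ N h1) hκ
  have hMfull : Full3 M := TPO_scale hCHB M s hs hL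
  -- Los
  have hev : ¬ ∀ᶠ ω in (𝓅 : Filter Ω), NF (fun i j k => T (X' ω i) (Y' ω j) (Z' ω k)) := by
    intro h
    exact (hNFC _ _ _).1 (hLOS Ω 𝓅 (fun _ => K) (Option (Fin l))
      (fun ω i j k => T (X' ω i) (Y' ω j) (Z' ω k)) h) hMfull
  rw [← Ultrafilter.eventually_not] at hev
  obtain ⟨ω, hω⟩ := hev.exists
  have hfω : Full3 (fun i j k => T (X' ω i) (Y' ω j) (Z' ω k)) := by
    by_contra h
    exact hω ((hNFC _ _ _).2 h)
  exact hF (HasFull.of_fintype (by simp) (X' ω) (Y' ω) (Z' ω) hfω)

end Pool.Agent.helper26.IM
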