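import Pool.Agent.helper26.IM.SpecA

/-!
# Project im, module FLX: extension of a full tensor by a corner
-/

set_option autoImplicit false

open Finset

namespace Pool.Agent.helper26.IM

open Pool.Agent.RRank Pool.Agent.helper35.MR

/-- restriction to the coordinates of `ι` -/
def FLX_pr (K ι : Type) [Field K] : (Option ι → K) →ₗ[K] (ι → K) := LinearMap.funLeft K K some

theorem FLX_pr_apply {K ι : Type} [Field K] (u : Option ι → K) (i : ι) :
    FLX_pr K ι u i = u (some i) := rfl

/-- extension by zero -/
def FLX_ext (K ι : Type) [Field K] : (ι → K) →ₗ[K] (Option ι → K) where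
  toFun x := fun o => o.elim 0 x
  map_add' x y := by
    funext o
    cases o <;> simp
  map_smul' c x := by
    funext o
    cases o <;> simp

theorem FLX_ext_none {K ι : Type} [Field K] (x : ι → K) : FLX_ext K ι x none = 0 := rfl

theorem FLX_ext_some {K ι : Type} [Field K] (x : ι → K) (i : ι) : FLX_ext K ι x (some i) = x i :=
  rfl

theorem FLX_ext_injective {K ι : Type} [Field K] : Function.Injective (FLX_ext K ι) := by
  intro x y h
  funext i
  exact congrFun h (some i)

/-- `pr` loses at most one dimension -/
theorem FLX_dim_pr {K ι : Type} [Field K] [Fintype ι] (S : Submodule K (Option ι → K)) :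
    Module.finrank K S ≤ Module.finrank K (S.map (FLX_pr K ι)) + 1 := by
  have h := LinearMap.finrank_range_add_finrank_ker ((FLX_pr K ι).domRestrict S)
  rw [LinearMap.range_domRestrict] at h
  have h2 : Module.finrank K (LinearMap.ker ((FLX_pr K ι).domRestrict S)) ≤ 1 := by
    have h3 : Module.finrank K (LinearMap.ker ((FLX_pr K ι).domRestrict S)) ≤
        Module.finrank K K := by
      let f : (LinearMap.ker ((FLX_pr K ι).domRestrict S)) →ₗ[K] K :=
        ((LinearMap.proj (none : Option ι) : (Option ι → K) →ₗ[K] K).comp S.subtype).comp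
          (Submodule.subtype _)
      refine LinearMap.finrank_le_finrank_of_injective (f := f) ?_
      intro x y hxy
      apply Subtype.ext
      apply Subtype.ext
      funext o
      cases o with
      | none => exact hxy
      | some i =>
        have h4 := congrFun (LinearMap.mem_ker.1 x.2) i
        have h5 := congrFun (LinearMap.mem_ker.1 y.2) i
        exact h4.trans h5.symm
    simpa using h3
  omega

/-- `pr` loses no dimension if `e_none ∉ S` -/
theorem FLX_dim_pr' {K ι : Type} [Field K] [Fintype ι] [DecidableEq ι]
    (S : Submodule K (Option ι → K)) (hS : (Pi.single none 1 : Option ι → K) ∉ S) :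
    Module.finrank K S ≤ Module.finrank K (S.map (FLX_pr K ι)) := by
  have h := LinearMap.finrank_range_add_finrank_ker ((FLX_pr K ι).domRestrict S)
  rw [LinearMap.range_domRestrict] at h
  have h2 : LinearMap.ker ((FLX_pr K ι).domRestrict S) = ⊥ := by
    rw [LinearMap.ker_eq_bot']
    intro x hx
    by_contra hne
    apply hS
    have hsome : ∀ i, (x : Option ι → K) (some i) = 0 := fun i => congrFun hx i
    have hnone : (x : Option ι → K) none ≠ 0 := by
      intro h0
      apply hne
      apply Subtype.ext
      funext o
      cases o with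
      | none => exact h0
      | some i => exact hsome i
    have : (Pi.single none 1 : Option ι → K) = ((x : Option ι → K) none)⁻¹ • (x : Option ι → K) := by
      funext o
      cases o with
      | none => simp [hnone]
      | some i => simp [hsome]
    rw [this]
    exact S.smul_mem _ x.2
  rw [h2, finrank_bot] at h
  omega

theorem FLX_comap_map {K ι : Type} [Field K] (S : Submodule K (Option ι → K)) :
    (S.comap (FLX_ext K ι)).map (FLX_ext K ι) =
      S ⊓ LinearMap.ker (LinearMap.proj (none : Option ι) : (Option ι → K) →ₗ[K] K) := by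
  ext v
  constructor
  · rintro ⟨x, hx, rfl⟩
    exact ⟨hx, FLX_ext_none x⟩
  · rintro ⟨hv, hv0⟩
    have h : FLX_ext K ι (FLX_pr K ι v) = v := by
      funext o
      cases o with
      | none => exact (LinearMap.mem_ker.1 hv0).symm
      | some i => rfl
    refine ⟨FLX_pr K ι v, ?_, h⟩
    show FLX_ext K ι (FLX_pr K ι v) ∈ S
    rw [h]
    exact hv

theorem FLX_finrank_comap {K ι : Type} [Field K] [Fintype ι] (S : Submodule K (Option ι → K)) :
    Module.finrank K (S.comap (FLX_ext K ι)) = Module.finrank K
      ((S ⊓ LinearMap.ker (LinearMap.proj (none : Option ι) : (Option ι → K) →ₗ[K] K) :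
        Submodule K (Option ι → K))) := by
  rw [← FLX_comap_map]
  exact (Submodule.equivMapOfInjective (FLX_ext K ι) FLX_ext_injective
    (S.comap (FLX_ext K ι))).finrank_eq

/-- vectors with `x_none = 0`: at most one dimension less -/
theorem FLX_dim_ext {K ι : Type} [Field K] [Fintype ι] (S : Submodule K (Option ι → K)) :
    Module.finrank K S ≤ Module.finrank K (S.comap (FLX_ext K ι)) + 1 := by
  rw [FLX_finrank_comap]
  set φ : (Option ι → K) →ₗ[K] K := LinearMap.proj (none : Option ι)
  have h := LinearMap.finrank_range_add_finrank_ker (φ.domRestrict S)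
  have h1 : Module.finrank K (LinearMap.range (φ.domRestrict S)) ≤ 1 := by
    have := Submodule.finrank_le (LinearMap.range (φ.domRestrict S))
    simpa using this
  have h2 : Module.finrank K (LinearMap.ker (φ.domRestrict S)) =
      Module.finrank K ((S ⊓ LinearMap.ker φ : Submodule K (Option ι → K))) := by
    have h3 : (LinearMap.ker (φ.domRestrict S)).map S.subtype = S ⊓ LinearMap.ker φ := by
      ext v
      constructor
      · rintro ⟨x, hx, rfl⟩
        exact ⟨x.2, hx⟩
      · rintro ⟨hv, hv0⟩
        exact ⟨⟨v, hv⟩, hv0, rfl⟩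
    rw [← h3]
    exact (Submodule.equivMapOfInjective S.subtype S.subtype_injective
      (LinearMap.ker (φ.domRestrict S))).finrank_eq
  omega

theorem FLX_dim_ext' {K ι : Type} [Field K] [Fintype ι] (S : Submodule K (Option ι → K))
    (hS : ∀ v ∈ S, v none = 0) :
    Module.finrank K S ≤ Module.finrank K (S.comap (FLX_ext K ι)) := by
  rw [FLX_finrank_comap]
  have h : S ⊓ LinearMap.ker (LinearMap.proj (none : Option ι) : (Option ι → K) →ₗ[K] K) = S :=
    inf_eq_left.2 fun v hv => hS v hv
  rw [h]

/-- module FLX -/
theorem FLX : FLX_stmt := by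
  intro K _ ι _ M h0 hM hfull U V W hd
  classical
  by_contra hcon
  push Not at hcon
  rw [Fintype.card_option] at hd
  -- value for `v`, `w` extended by zero
  have hval : ∀ (u : Option ι → K) (v w : ι → K), ev3 M u (FLX_ext K ι v) (FLX_ext K ι w) =
      ev3 (fun i j k => M (some i) (some j) (some k)) (FLX_pr K ι u) v w := by
    intro u v w
    unfold ev3
    simp only [Fintype.sum_option, FLX_ext_none, FLX_ext_some, FLX_pr_apply, mul_zero, zero_mul,
      zero_add, Finset.sum_const_zero]
    have h1 : ∑ j, ∑ k, M none (some j) (some k) * (u none * v j * w k) = 0 :=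
      Finset.sum_eq_zero fun j _ => Finset.sum_eq_zero fun k _ => by
        rw [hM _ _ (by simp), zero_mul]
    rw [h1, zero_add]
  have hcore : Module.finrank K (U.map (FLX_pr K ι)) + Module.finrank K (V.comap (FLX_ext K ι)) +
      Module.finrank K (W.comap (FLX_ext K ι)) ≤ 2 * Fintype.card ι := by
    by_contra hlt
    push Not at hlt
    obtain ⟨u, ⟨u', hu', rfl⟩, v, hv, w, hw, h1⟩ := hfull _ _ _ hlt
    apply h1
    rw [← hval]
    exact hcon u' hu' _ hv _ hw
  have hU := FLX_dim_pr U
  have hV := FLX_dim_ext V
  have hW := FLX_dim_ext W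
  by_cases hV0 : ∀ v ∈ V, v none = 0
  · have hV' := FLX_dim_ext' V hV0
    omega
  by_cases hW0 : ∀ w ∈ W, w none = 0
  · have hW' := FLX_dim_ext' W hW0
    omega
  by_cases hUe : (Pi.single none 1 : Option ι → K) ∈ U
  · push Not at hV0 hW0
    obtain ⟨v, hv, hv0⟩ := hV0
    obtain ⟨w, hw, hw0⟩ := hW0
    have h1 := hcon _ hUe v hv w hw
    have h2 : ev3 M (Pi.single none 1) v w = M none none none * (v none * w none) := by
      unfold ev3
      rw [Finset.sum_eq_single none, Finset.sum_eq_single none, Finset.sum_eq_single none]
      · simp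
      · intro k _ hk
        rw [hM _ _ (fun h => hk (Prod.mk.inj h).2), zero_mul]
      · simp
      · intro j _ hj
        refine Finset.sum_eq_zero fun k _ => ?_
        rw [hM _ _ (fun h => hj (Prod.mk.inj h).1), zero_mul]
      · simp
      · intro i _ hi
        refine Finset.sum_eq_zero fun j _ => Finset.sum_eq_zero fun k _ => ?_
        simp [hi]
      · simp
    rw [h2] at h1
    exact mul_ne_zero h0 (mul_ne_zero hv0 hw0) h1
  · have hU' := FLX_dim_pr' U hUe
    omega

end Pool.Agent.helper26.IM
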